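import Mathlib

/-! Covers of a group by conjugates of finitely many automorphic images of a subgroup. -/

namespace Pool.Agent.P.MP_169bcc_al

open Subgroup
open scoped commutatorElement Pointwise

variable {G : Type*} [Group G]

/-- The elements whose commutators with `C` lie in the normal subgroup `E`. -/
def cz (C E : Subgroup G) [E.Normal] : Subgroup G where
  carrier := {g | ∀ c ∈ C, ⁅g, c⁆ ∈ E}
  one_mem' := fun c _ => by simp
  mul_mem' := fun {a b} ha hb c hc => by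
    have e : ⁅a * b, c⁆ = a * ⁅b, c⁆ * a⁻¹ * ⁅a, c⁆ := by
      simp only [commutatorElement_def]; group
    rw [e]
    exact E.mul_mem (Normal.conj_mem inferInstance _ (hb c hc) a) (ha c hc)
  inv_mem' := fun {a} ha c hc => by
    have e : ⁅a⁻¹, c⁆ = a⁻¹ * ⁅a, c⁆⁻¹ * a⁻¹⁻¹ := by
      simp only [commutatorElement_def]; group
    rw [e]
    exact Normal.conj_mem inferInstance _ (E.inv_mem (ha c hc)) a⁻¹

theorem le_cz {B C E : Subgroup G} [E.Normal] : B ≤ cz C E ↔ ⁅B, C⁆ ≤ E :=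
  commutator_le.symm

/-- The lower central series of `M`, preceded by the whole group. -/
def ser (M : Subgroup G) : ℕ → Subgroup G
  | 0 => ⊤
  | i + 1 => M.lowerCentralSeries i

instance (M : Subgroup G) [M.Normal] (i : ℕ) : (ser M i).Normal := by
  cases i <;> unfold ser <;> infer_instance

theorem ser_comm (M : Subgroup G) [M.Normal] (i : ℕ) : ⁅ser M i, M⁆ ≤ ser M (i + 1) := by
  cases i
  · exact commutator_le_right _ _
  · exact le_rfl

/-- Fitting's theorem. -/
theorem fitting (M N : Subgroup G) [M.Normal] [N.Normal] {c d : ℕ}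
    (hM : M.lowerCentralSeries c = ⊥) (hN : N.lowerCentralSeries d = ⊥) :
    (M ⊔ N).lowerCentralSeries (c + d) = ⊥ := by
  let L : ℕ → Subgroup G := fun k =>
    ⨆ q : {q : ℕ × ℕ // q.1 + q.2 = k}, ser M q.1.1 ⊓ ser N q.1.2
  have hL : ∀ i j k, i + j = k → ser M i ⊓ ser N j ≤ L k := fun i j k h =>
    le_iSup (fun q : {q : ℕ × ℕ // q.1 + q.2 = k} => ser M q.1.1 ⊓ ser N q.1.2) ⟨(i, j), h⟩
  have h1 : ∀ k, ⁅L k, M ⊔ N⁆ ≤ L (k + 1) := by
    intro k
    rw [← le_cz]
    refine iSup_le fun ⟨⟨i, j⟩, h⟩ => ?_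
    rw [le_cz, commutator_comm, ← le_cz, sup_le_iff, le_cz, le_cz, commutator_comm M,
      commutator_comm N]
    constructor
    · refine le_trans (le_inf ?_ ?_) (hL (i + 1) j _ (by simp only at h; omega))
      · exact (commutator_mono inf_le_left le_rfl).trans (ser_comm M i)
      · exact (commutator_le_left _ _).trans inf_le_right
    · refine le_trans (le_inf ?_ ?_) (hL i (j + 1) _ (by simp only at h; omega))
      · exact (commutator_le_left _ _).trans inf_le_left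
      · exact (commutator_mono inf_le_right le_rfl).trans (ser_comm N j)
  have h2 : ∀ k, (M ⊔ N).lowerCentralSeries k ≤ L (k + 1) := by
    intro k
    induction k with
    | zero =>
      exact sup_le (le_trans (le_inf le_rfl le_top) (hL 1 0 _ rfl))
        (le_trans (le_inf le_top le_rfl) (hL 0 1 _ rfl))
    | succ k ih => exact (commutator_mono ih le_rfl).trans (h1 _)
  refine le_bot_iff.1 ((h2 _).trans (iSup_le fun ⟨⟨i, j⟩, h⟩ => ?_))
  simp only at h ⊢
  rcases i with _ | i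
  · obtain rfl : j = c + d + 1 := by omega
    exact inf_le_right.trans (hN ▸ N.lowerCentralSeries_antitone (by omega))
  · by_cases hi : c ≤ i
    · exact inf_le_left.trans (hM ▸ M.lowerCentralSeries_antitone hi)
    · obtain ⟨j, rfl⟩ : ∃ j', j = j' + 1 := ⟨j - 1, by omega⟩
      exact inf_le_right.trans (hN ▸ N.lowerCentralSeries_antitone (by omega))

theorem fitting_finset {ι : Type*} (s : Finset ι) (Y : ι → Subgroup G) [∀ i, (Y i).Normal]
    {c : ℕ} (h : ∀ i, (Y i).lowerCentralSeries c = ⊥) :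
    ∃ Z : Subgroup G, Z.Normal ∧ Z.lowerCentralSeries (c * s.card) = ⊥ ∧ ∀ i ∈ s, Y i ≤ Z := by
  classical
  induction s using Finset.induction_on with
  | empty => exact ⟨⊥, inferInstance, by simp, by simp⟩
  | insert a s ha ih =>
    obtain ⟨Z, hZ, h1, h2⟩ := ih
    refine ⟨Z ⊔ Y a, inferInstance, ?_, fun i hi => ?_⟩
    · rw [Finset.card_insert_of_notMem ha, mul_add, mul_one]
      exact fitting _ _ h1 (h a)
    · rcases Finset.mem_insert.1 hi with rfl | hi
      · exact le_sup_right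
      · exact (h2 i hi).trans le_sup_left

/-- Counting conjugates. -/
theorem cover_step {ι : Type*} [Fintype ι] (M M' : ι → Subgroup G) (hle : ∀ i, M i ≤ M' i)
    (hn : ∀ i, ∀ x ∈ M' i, ∀ y ∈ M i, x * y * x⁻¹ ∈ M i) (hf : ∀ i, (M i).index ≠ 0)
    (hc : ∀ g : G, ∃ i, ∃ h : G, h * g * h⁻¹ ∈ M i) :
    ∃ i, (M i).relIndex (M' i) ≤ Fintype.card ι := by
  classical
  by_contra! hlt
  have hf' : ∀ i, (M' i).index ≠ 0 := fun i h => hf i (by
    rw [← relIndex_mul_index (hle i), h, mul_zero])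
  have : ∀ i, Fintype (G ⧸ M' i) := fun i => fintypeOfIndexNeZero (hf' i)
  let H : (Σ i, G ⧸ M' i) → Subgroup G := fun q =>
    (M q.1).comap (MulAut.conj q.2.out⁻¹).toMonoidHom
  have hcov : ⋃ q ∈ (Finset.univ : Finset (Σ i, G ⧸ M' i)), (1 : G) • (H q : Set G) =
      Set.univ := by
    refine Set.eq_univ_of_forall fun g => ?_
    obtain ⟨i, h, hg⟩ := hc g
    obtain ⟨m, hm⟩ := QuotientGroup.mk_out_eq_mul (M' i) h⁻¹
    simp only [Finset.mem_univ, Set.iUnion_true, one_smul, Set.mem_iUnion]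
    refine ⟨⟨i, (h⁻¹ : G)⟩, ?_⟩
    have := hn i _ ((M' i).inv_mem m.2) _ hg
    simp only [H, SetLike.mem_coe, mem_comap, hm, MulEquiv.toMonoidHom_eq_coe, MonoidHom.coe_coe,
      MulAut.conj_apply]
    convert this using 1
    group
  have h1 := one_le_sum_inv_index_of_leftCoset_cover hcov
  have h2 : ∀ q, (H q).index = (M q.1).index := fun q =>
    index_comap_of_surjective _ (MulAut.conj _).surjective
  simp only [h2] at h1
  rw [Fintype.sum_sigma] at h1
  obtain ⟨i0, -⟩ := hc 1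
  have hpos : (0 : ℚ) < Fintype.card ι := by exact_mod_cast Fintype.card_pos_iff.2 ⟨i0⟩
  have h3 : ∀ i ∈ (Finset.univ : Finset ι), ∑ _q : G ⧸ M' i, (((M i).index : ℚ))⁻¹ <
      (Fintype.card ι : ℚ)⁻¹ := by
    intro i _
    rw [Finset.sum_const, Finset.card_univ, ← Nat.card_eq_fintype_card, ← index_eq_card,
      nsmul_eq_mul, ← relIndex_mul_index (hle i), Nat.cast_mul, mul_inv, mul_comm, mul_assoc,
      inv_mul_cancel₀ (by exact_mod_cast hf' i), mul_one]
    exact inv_strictAnti₀ hpos (by exact_mod_cast hlt i)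
  have h4 := Finset.sum_lt_sum_of_nonempty ⟨i0, Finset.mem_univ _⟩ h3
  rw [Finset.sum_const, Finset.card_univ, nsmul_eq_mul, mul_inv_cancel₀ hpos.ne'] at h4
  exact absurd h1 (not_le.2 h4)

/-- A nilpotent group covered by the conjugates of few subgroups. -/
theorem cover_nilpotent {ι : Type*} [Fintype ι] (W : ι → Subgroup G) {c : ℕ}
    (hG : (⊤ : Subgroup G).lowerCentralSeries c = ⊥) (hf : ∀ i, (W i).index ≠ 0)
    (hc : ∀ g : G, ∃ i, ∃ h : G, h * g * h⁻¹ ∈ W i) :
    ∃ i, (W i).index ≤ Fintype.card ι ^ c := by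
  by_contra! hlt
  let D : ℕ → Subgroup G := (⊤ : Subgroup G).lowerCentralSeries
  have hD : ∀ i k, W i ⊔ D (k + 1) ≤ W i ⊔ D k := fun i k =>
    sup_le_sup_left ((⊤ : Subgroup G).lowerCentralSeries_antitone k.le_succ) _
  have h1 : ∀ i, ∃ k, Fintype.card ι < (W i ⊔ D (k + 1)).relIndex (W i ⊔ D k) := by
    intro i
    by_contra! h
    have : ∀ k, (W i ⊔ D k).index ≤ Fintype.card ι ^ k := by
      intro k
      induction k with
      | zero => simp [D]
      | succ k ih =>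
        rw [← relIndex_mul_index (hD i k), pow_succ']
        exact Nat.mul_le_mul (h k) ih
    have h2 := this c
    simp only [D, hG, sup_bot_eq] at h2
    exact absurd h2 (not_le.2 (hlt i))
  choose k hk using h1
  obtain ⟨i, hi⟩ := cover_step (fun i => W i ⊔ D (k i + 1)) (fun i => W i ⊔ D (k i))
    (fun i => hD i _) (fun i x hx y hy => by
      obtain ⟨w, hw, d, hd, rfl⟩ := mem_sup_of_normal_right.1 hx
      have e : w * d * y * (w * d)⁻¹ = w * (⁅d, y⁆ * y) * w⁻¹ := by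
        simp only [commutatorElement_def]; group
      rw [e]
      exact mul_mem (mul_mem (mem_sup_left hw) (mul_mem (mem_sup_right
        (commutator_mem_commutator hd (mem_top y))) hy)) (inv_mem (mem_sup_left hw)))
    (fun i h => hf i (Nat.eq_zero_of_zero_dvd (h ▸ index_dvd_of_le le_sup_left)))
    fun g => (hc g).imp fun i h => h.imp fun _ h => mem_sup_left h
  exact absurd hi (not_le.2 (hk i))

theorem relIndex_sup (W Y : Subgroup G) [Y.Normal] : W.relIndex (W ⊔ Y) = W.relIndex Y := by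
  refine (Nat.card_eq_of_bijective
    (quotientSubgroupOfEmbeddingOfLE W (le_sup_right : Y ≤ W ⊔ Y))
    ⟨Function.Embedding.injective _, fun q => ?_⟩).symm
  obtain ⟨⟨g, hg⟩, rfl⟩ := QuotientGroup.mk_surjective q
  obtain ⟨y, hy, w, hw, rfl⟩ := mem_sup_of_normal_left.1 (sup_comm W Y ▸ hg)
  refine ⟨QuotientGroup.mk ⟨y, hy⟩, ?_⟩
  rw [quotientSubgroupOfEmbeddingOfLE_apply_mk, QuotientGroup.eq, mem_subgroupOf]
  simpa using hw

theorem index_eq_mul (W Y : Subgroup G) [Y.Normal] :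
    W.index = (W.subgroupOf Y).index * (W ⊔ Y).index := by
  rw [← relIndex_mul_index (le_sup_left : W ≤ W ⊔ Y), relIndex_sup]
  rfl

/-- `G` is covered by the conjugates of the images of `W` under at most `s` automorphisms. -/
def ACov (s : ℕ) (W : Subgroup G) : Prop :=
  ∃ Ψ : Finset (MulAut G), Ψ.card ≤ s ∧ ∀ g : G, ∃ ψ ∈ Ψ, ∃ h : G, ψ (h * g * h⁻¹) ∈ W

theorem ACov.mono {s t : ℕ} {W W' : Subgroup G} (h : ACov s W) (hst : s ≤ t) (hW : W ≤ W') :
    ACov t W' := by
  obtain ⟨Ψ, h1, h2⟩ := h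
  refine ⟨Ψ, h1.trans hst, fun g => ?_⟩
  obtain ⟨ψ, hψ, h, h3⟩ := h2 g
  exact ⟨ψ, hψ, h, hW h3⟩

theorem acov_subgroupOf (X K : Subgroup G) [K.Normal] (hf : (X ⊔ K).index ≠ 0)
    (hc : ∀ k ∈ K, ∃ a : G, a * k * a⁻¹ ∈ X) : ACov (X ⊔ K).index (X.subgroupOf K) := by
  classical
  have := fintypeOfIndexNeZero hf
  refine ⟨Finset.univ.image fun q : G ⧸ (X ⊔ K) => MulAut.conjNormal q.out⁻¹,
    Finset.card_image_le.trans (by rw [Finset.card_univ, index_eq_card, Nat.card_eq_fintype_card]),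
    fun k => ?_⟩
  obtain ⟨a, ha⟩ := hc k k.2
  obtain ⟨z, hz⟩ := QuotientGroup.mk_out_eq_mul (X ⊔ K) a⁻¹
  obtain ⟨x, hx, h, hh, e⟩ := mem_sup_of_normal_right.1 z.2
  refine ⟨_, Finset.mem_image_of_mem _ (Finset.mem_univ ((a⁻¹ : G) : G ⧸ (X ⊔ K))),
    ⟨a⁻¹ * z * h * (a⁻¹ * z)⁻¹, Normal.conj_mem inferInstance _ hh _⟩, ?_⟩
  rw [mem_subgroupOf, MulAut.conjNormal_apply, hz]
  simp only [coe_mul, InvMemClass.coe_inv, ← e]
  convert X.mul_mem (X.mul_mem (X.inv_mem hx) ha) hx using 1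
  group

theorem ACov.index_le {s : ℕ} {W : Subgroup G} [W.Normal] (h : ACov s W) (hf : W.index ≠ 0) :
    W.index ≤ s := by
  obtain ⟨Ψ, h1, h2⟩ := h
  have e : ∀ ψ : Ψ, (W.comap ψ.1.toMonoidHom).index = W.index := fun ψ =>
    index_comap_of_surjective _ ψ.1.surjective
  obtain ⟨ψ, hψ⟩ := cover_step (fun ψ : Ψ => W.comap ψ.1.toMonoidHom) (fun _ => ⊤)
    (fun _ => le_top) (fun _ x _ y hy => Normal.conj_mem inferInstance y hy x)
    (fun ψ => e ψ ▸ hf) fun g => by
      obtain ⟨ψ, hψ, h, h3⟩ := h2 g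
      exact ⟨⟨ψ, hψ⟩, h, h3⟩
  rw [relIndex_top_right, e, Fintype.card_coe] at hψ
  exact hψ.trans h1

theorem lcs_comap {G' : Type*} [Group G'] (f : G' →* G) (hf : Function.Injective f)
    {Y : Subgroup G} {c : ℕ} (h : Y.lowerCentralSeries c = ⊥) :
    (Y.comap f).lowerCentralSeries c = ⊥ := by
  rw [← map_eq_bot_iff_of_injective _ hf, map_lowerCentralSeries, eq_bot_iff, ← h]
  exact lowerCentralSeries_mono c (map_comap_le _ _)

theorem ACov.index_le_pow {s c : ℕ} {W Y : Subgroup G} [Y.Normal] (h : ACov s W)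
    (hf : W.index ≠ 0) (hY : Y.lowerCentralSeries c = ⊥) (hs : W ⊔ Y = ⊤) :
    W.index ≤ s ^ (c * s) := by
  obtain ⟨Ψ, h1, h2⟩ := h
  obtain ⟨Z, hZ, h3, h4⟩ := fitting_finset Ψ (fun ψ => Y.comap ψ.toMonoidHom)
    fun ψ => lcs_comap _ ψ.injective hY
  have h5 : ∀ ψ ∈ Ψ, W.comap ψ.toMonoidHom ⊔ Z = ⊤ := fun ψ hψ => by
    refine top_le_iff.1 (le_trans ?_ (sup_le_sup_left (h4 ψ hψ) _))
    rw [comap_sup_eq _ _ _ ψ.surjective, hs, comap_top]
  have e : ∀ ψ : Ψ, ((W.comap ψ.1.toMonoidHom).subgroupOf Z).index = W.index := fun ψ => by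
    rw [← index_comap_of_surjective W (f := ψ.1.toMonoidHom) ψ.1.surjective,
      index_eq_mul _ Z, h5 ψ.1 ψ.2, index_top, mul_one]
  obtain ⟨ψ, hψ⟩ := cover_nilpotent (fun ψ : Ψ => (W.comap ψ.1.toMonoidHom).subgroupOf Z)
    (c := c * Ψ.card) (by
      rw [← map_eq_bot_iff_of_injective _ Z.subtype_injective, top_subtype_lowerCentralSeries, h3])
    (fun ψ => e ψ ▸ hf) fun z => by
      obtain ⟨ψ, hψ, g, hg⟩ := h2 z
      obtain ⟨w, hw, y, hy, rfl⟩ := mem_sup_of_normal_right.1 (h5 ψ hψ ▸ mem_top g)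
      refine ⟨⟨ψ, hψ⟩, ⟨y, hy⟩, ?_⟩
      rw [mem_subgroupOf]
      have := mul_mem (mul_mem (inv_mem hw) (show _ ∈ W.comap ψ.toMonoidHom from hg)) hw
      convert this using 1
      simp only [coe_mul, InvMemClass.coe_inv]
      group
  rw [e, Fintype.card_coe] at hψ
  obtain ⟨ψ, hψ', -⟩ := h2 1
  have := Finset.card_pos.2 ⟨ψ, hψ'⟩
  exact hψ.trans ((Nat.pow_le_pow_left h1 _).trans
    (Nat.pow_le_pow_right (by omega) (Nat.mul_le_mul_left _ h1)))

/-- The commutator subgroup of a nilpotent group consists of non-generators. -/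
theorem eq_top_of_nilpotent [Group.IsNilpotent G] [Finite G] {L : Subgroup G}
    (h : L ⊔ _root_.commutator G = ⊤) : L = ⊤ := by
  by_contra hL
  obtain ⟨M, hM, hLM⟩ := (eq_top_or_exists_le_coatom L).resolve_left hL
  have : M.Normal := 
    NormalizerCondition.normal_of_coatom M Group.normalizerCondition_of_isNilpotent hM
  have : Nontrivial (G ⧸ M) := QuotientGroup.nontrivial_iff.2 hM.1
  refine (Group.IsSolvable.commutator_lt_top_of_nontrivial (G ⧸ M)).ne ?_
  have h1 := congrArg (map (QuotientGroup.mk' M)) h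
  rw [Subgroup.map_sup, (Subgroup.map_eq_bot_iff L).2 (by rwa [QuotientGroup.ker_mk']), bot_sup_eq,
    map_top_of_surjective _ (QuotientGroup.mk'_surjective M), _root_.commutator_def,
    map_commutator, map_top_of_surjective _ (QuotientGroup.mk'_surjective M)] at h1
  exact h1

/-- All finite quotients are nilpotent. -/
def FQN (G : Type*) [Group G] : Prop :=
  ∀ (C : Subgroup G) [C.Normal], C.index ≠ 0 → Group.IsNilpotent (G ⧸ C)

theorem FQN.eq_top (hG : FQN G) {L : Subgroup G} (hf : L.index ≠ 0)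
    (h : L ⊔ _root_.commutator G = ⊤) : L = ⊤ := by
  have : L.FiniteIndex := ⟨hf⟩
  have := hG L.normalCore FiniteIndex.index_ne_zero
  have hs := QuotientGroup.mk'_surjective L.normalCore
  have h1 := congrArg (map (QuotientGroup.mk' L.normalCore)) h
  rw [Subgroup.map_sup, map_top_of_surjective _ hs, _root_.commutator_def, map_commutator,
    map_top_of_surjective _ hs] at h1
  have h2 := congrArg (comap (QuotientGroup.mk' L.normalCore)) (eq_top_of_nilpotent h1)
  rwa [comap_map_eq, QuotientGroup.ker_mk', sup_of_le_left L.normalCore_le, comap_top] at h2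

theorem fqn_of_pow {p : ℕ} (hp : p.Prime) (h : ∀ g : G, g ^ p = 1) : FQN G := by
  intro C _ hC
  have : C.FiniteIndex := ⟨hC⟩
  have := Fact.mk hp
  refine IsPGroup.isNilpotent (p := p) fun g => ⟨1, ?_⟩
  obtain ⟨g, rfl⟩ := QuotientGroup.mk'_surjective C g
  rw [pow_one, ← map_pow, h, map_one]

/-- `G` is generated by normal subgroups that are nilpotent of class at most `c`. -/
def GenNil (c : ℕ) (G : Type*) [Group G] : Prop :=
  sSup {V : Subgroup G | V.Normal ∧ V.lowerCentralSeries c = ⊥} = ⊤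

theorem GenNil.greedy {c : ℕ} (hG : GenNil c G) (T : Subgroup G) (hf : T.index ≠ 0) :
    ∃ Y : Subgroup G, Y.Normal ∧ Y.lowerCentralSeries (c * T.index) = ⊥ ∧ T ⊔ Y = ⊤ := by
  have : T.FiniteIndex := ⟨hf⟩
  have : ∀ t, ∃ Y : Subgroup G, Y.Normal ∧ Y.lowerCentralSeries (c * t) = ⊥ ∧
      (T ⊔ Y = ⊤ ∨ (T ⊔ Y).index + t ≤ T.index) := by
    intro t
    induction t with
    | zero => exact ⟨⊥, inferInstance, by simp, Or.inr (by simp)⟩
    | succ t ih =>
      obtain ⟨Y, hY, h1, h2⟩ := ih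
      by_cases h : T ⊔ Y = ⊤
      · exact ⟨Y, hY, le_bot_iff.1 (h1 ▸ Y.lowerCentralSeries_antitone
          (Nat.mul_le_mul_left _ t.le_succ)), Or.inl h⟩
      · obtain ⟨V, ⟨hV, h3⟩, h4⟩ : ∃ V ∈ {V : Subgroup G | V.Normal ∧ V.lowerCentralSeries c = ⊥},
            ¬ V ≤ T ⊔ Y := by
          by_contra! h5
          exact h (top_le_iff.1 (hG ▸ sSup_le h5))
        refine ⟨Y ⊔ V, inferInstance, fitting _ _ h1 h3, Or.inr ?_⟩
        have : (T ⊔ Y).FiniteIndex := finiteIndex_of_le (le_sup_left : T ≤ _)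
        have h5 : T ⊔ Y < T ⊔ (Y ⊔ V) := lt_of_le_of_ne (sup_le_sup_left le_sup_left _) fun e =>
          h4 (e ▸ le_sup_right.trans le_sup_right)
        have := index_strictAnti h5
        have := h2.resolve_left h
        omega
  obtain ⟨Y, h1, h2, h3⟩ := this T.index
  refine ⟨Y, h1, h2, h3.resolve_right fun h => ?_⟩
  have : (T ⊔ Y).FiniteIndex := finiteIndex_of_le (le_sup_left : T ≤ _)
  have := this.index_ne_zero
  omega

theorem GenNil.fqn {c : ℕ} (hG : GenNil c G) : FQN G := by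
  intro C _ hC
  obtain ⟨Y, -, h1, h2⟩ := hG.greedy C hC
  have hs := QuotientGroup.mk'_surjective C
  have h3 := congrArg (map (QuotientGroup.mk' C)) h2
  rw [Subgroup.map_sup, (Subgroup.map_eq_bot_iff C).2 (by rw [QuotientGroup.ker_mk']), bot_sup_eq,
    map_top_of_surjective _ hs] at h3
  exact Subgroup.nilpotent_iff_lowerCentralSeries.2
    ⟨_, by rw [← h3, ← map_lowerCentralSeries, h1, Subgroup.map_bot]⟩

instance (W : Subgroup G) : (W ⊔ _root_.commutator G).Normal :=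
  ⟨fun x hx g => by
    have e : g * x * g⁻¹ = ⁅g, x⁆ * x := by simp only [commutatorElement_def]; group
    rw [e]
    exact mul_mem (mem_sup_right (commutator_mem_commutator (mem_top g) (mem_top x))) hx⟩

theorem sup_index_ne_zero {W : Subgroup G} (hf : W.index ≠ 0) (Y : Subgroup G) :
    (W ⊔ Y).index ≠ 0 := fun h => hf (Nat.eq_zero_of_zero_dvd (h ▸ index_dvd_of_le le_sup_left))

theorem ACov.sup_commutator {s : ℕ} {W : Subgroup G} (h : ACov s W) (hf : W.index ≠ 0) :
    (W ⊔ _root_.commutator G).index ≤ s :=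
  (h.mono le_rfl le_sup_left).index_le (sup_index_ne_zero hf _)

/-- Groups generated by normal nilpotent subgroups of bounded class. -/
theorem ACov.index_le_of_genNil {s c : ℕ} {W : Subgroup G} (h : ACov s W) (hf : W.index ≠ 0)
    (hG : GenNil c G) : W.index ≤ s ^ (c * s * s) := by
  obtain ⟨Y, hY, h1, h2⟩ := hG.greedy _ (sup_index_ne_zero hf (_root_.commutator G))
  refine h.index_le_pow hf (Y := Y) (le_bot_iff.1 (h1 ▸ Y.lowerCentralSeries_antitone
    (Nat.mul_le_mul_left _ (h.sup_commutator hf)))) (hG.fqn.eq_top (sup_index_ne_zero hf _) ?_)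
  rw [sup_right_comm, h2]

/-- The ambient form of the previous theorem. -/
theorem index_le_of_genNil {m c : ℕ} (X K : Subgroup G) [K.Normal] (hf : X.index ≠ 0)
    (hm : (X ⊔ K).index ≤ m) (hc : ∀ k ∈ K, ∃ a : G, a * k * a⁻¹ ∈ X) (hG : GenNil c K) :
    X.index ≤ m ^ (c * m * m) * m := by
  have h1 := index_eq_mul X K
  rw [h1]
  exact Nat.mul_le_mul (((acov_subgroupOf X K (sup_index_ne_zero hf _) hc).mono hm
    le_rfl).index_le_of_genNil (fun h => hf (by rw [h1, h, zero_mul])) hG) hm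

/-- The subgroup generated by the normal subgroups of `N` of class at most `c`. -/
theorem exists_fit (N : Subgroup G) [hN : N.Normal] (c : ℕ) :
    ∃ K : Subgroup G, K.Normal ∧ K ≤ N ∧ GenNil c K ∧ ∀ V ≤ N, V.lowerCentralSeries c = ⊥ →
      (∀ n ∈ N, ∀ a ∈ V, n * a * n⁻¹ ∈ V) → V ≤ K := by
  let S : Set (Subgroup G) := {V | V ≤ N ∧ V.lowerCentralSeries c = ⊥ ∧
    ∀ n ∈ N, ∀ a ∈ V, n * a * n⁻¹ ∈ V}
  have hS : sSup S ≤ N := sSup_le fun _ h => h.1
  refine ⟨sSup S, ⟨fun x hx g => ?_⟩, hS, ?_, fun V h1 h2 h3 => le_sSup (s := S) ⟨h1, h2, h3⟩⟩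
  · refine (show sSup S ≤ (sSup S).comap (MulAut.conj g).toMonoidHom from
      sSup_le fun U hU y hy => ?_) hx
    refine le_sSup (s := S) (a := U.map (MulAut.conj g).toMonoidHom) ⟨?_, ?_, ?_⟩ ⟨y, hy, rfl⟩
    · rintro _ ⟨a, ha, rfl⟩
      exact hN.conj_mem _ (hU.1 ha) g
    · rw [← map_lowerCentralSeries, hU.2.1, Subgroup.map_bot]
    · rintro n hn _ ⟨a, ha, rfl⟩
      refine ⟨_, hU.2.2 _ (hN.conj_mem _ hn g⁻¹) a ha, ?_⟩
      simp only [MulEquiv.toMonoidHom_eq_coe, MonoidHom.coe_coe, MulAut.conj_apply]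
      group
  · rw [GenNil, eq_top_iff]
    intro x _
    have : sSup S ≤ (sSup {V : Subgroup (sSup S : Subgroup G) |
        V.Normal ∧ V.lowerCentralSeries c = ⊥}).map (sSup S).subtype := by
      refine sSup_le fun U hU y hy => ⟨⟨y, le_sSup (s := S) hU hy⟩, ?_, rfl⟩
      exact le_sSup (s := {V : Subgroup (sSup S : Subgroup G) |
        V.Normal ∧ V.lowerCentralSeries c = ⊥}) (a := U.subgroupOf (sSup S))
        ⟨⟨fun a ha g => hU.2.2 _ (hS g.2) _ ha⟩, lcs_comap _ (subtype_injective _) hU.2.1⟩ hy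
    obtain ⟨y, hy, e⟩ := this x.2
    exact (Subtype.ext e : y = x) ▸ hy

end Pool.Agent.P.MP_169bcc_al
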