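import Pool.Agent.P.MP_169bcc_al.Zorn

/-! The finite statement for a normal subgroup of prime exponent, by compactness. -/

namespace Pool.Agent.P.MP_169bcc_al

open Subgroup Filter Pool.Agent.P.MP_1307d3_al.End
open scoped commutatorElement Nat

section idx
variable {G : Type*} [Group G]

theorem index_le_of_fun (H : Subgroup G) {g : ℕ} (t : G → Fin g)
    (ht : ∀ a b, t a = t b → a⁻¹ * b ∈ H) : H.index ≠ 0 ∧ H.index ≤ g := by
  have hi : Function.Injective fun q : G ⧸ H => t q.out := fun q q' h => by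
    rw [← q.out_eq', ← q'.out_eq', QuotientGroup.eq]
    exact ht _ _ h
  have := Finite.of_injective _ hi
  exact ⟨index_ne_zero_of_finite, by
    simpa [index_eq_card] using Nat.card_le_card_of_injective _ hi⟩

theorem exists_fun_of_index_le (H : Subgroup G) {g : ℕ} (hf : H.index ≠ 0) (h : H.index ≤ g) :
    ∃ t : G → Fin g, ∀ a b, t a = t b → a⁻¹ * b ∈ H := by
  have := fintypeOfIndexNeZero hf
  obtain ⟨e⟩ := Function.Embedding.nonempty_of_card_le (α := G ⧸ H) (β := Fin g) (by
    rwa [Fintype.card_fin, ← Nat.card_eq_fintype_card])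
  exact ⟨fun a => e a, fun a b h => QuotientGroup.eq.1 (e.injective h)⟩

theorem lt_index_of_fun (H : Subgroup G) {j : ℕ} (hf : H.index ≠ 0) (r : Fin (j + 1) → G)
    (hr : ∀ k l, (r k)⁻¹ * r l ∈ H → k = l) : j < H.index := by
  have := fintypeOfIndexNeZero hf
  have hi : Function.Injective fun k => (r k : G ⧸ H) := fun k l h => hr k l (QuotientGroup.eq.1 h)
  have := Nat.card_le_card_of_injective _ hi
  rw [Nat.card_eq_fintype_card, Fintype.card_fin] at this
  exact this

theorem exists_fun_of_lt_index (H : Subgroup G) (j : ℕ) : ∃ r : Fin (j + 1) → G,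
    j < H.index → ∀ k l, (r k)⁻¹ * r l ∈ H → k = l := by
  by_cases h : j < H.index
  · have := fintypeOfIndexNeZero (show H.index ≠ 0 by omega)
    obtain ⟨e⟩ := Function.Embedding.nonempty_of_card_le (α := Fin (j + 1)) (β := G ⧸ H) (by
      rwa [Fintype.card_fin, ← Nat.card_eq_fintype_card])
    refine ⟨fun k => (e k).out, fun _ k l h => e.injective ?_⟩
    rw [← (e k).out_eq', ← (e l).out_eq', QuotientGroup.eq]
    exact h
  · exact ⟨fun _ => 1, fun h' => absurd h' h⟩

/-- One step of the descending chain. -/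
def nx (U F X : Subgroup G) : Subgroup G := U ⊔ ⁅X.normalCore ⊓ F, X.normalCore ⊓ F⁆

theorem nx_le {U F X : Subgroup G} [F.Normal] (h : U ≤ X) : nx U F X ≤ X :=
  sup_le h ((commutator_le_left _ _).trans (inf_le_left.trans X.normalCore_le))

theorem map_commutator_subtype (C : Subgroup G) :
    (_root_.commutator C).map C.subtype = ⁅C, C⁆ := by
  rw [_root_.commutator_def, map_commutator, ← MonoidHom.range_eq_map, range_subtype]

theorem le_of_le_sup_commutator {U C : Subgroup G} [C.Normal] (hC : FQN C) (hf : U.index ≠ 0)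
    (h : C ≤ U ⊔ ⁅C, C⁆) : C ≤ U := by
  rw [← subgroupOf_eq_top]
  refine hC.eq_top (fun e => hf (by rw [index_eq_mul U C, e, zero_mul])) (top_le_iff.1 ?_)
  intro x _
  obtain ⟨u, hu, c, hc, e⟩ := mem_sup_of_normal_right.1 (h x.2)
  rw [← map_commutator_subtype] at hc
  obtain ⟨c, hc, rfl⟩ := hc
  have : x = x * c⁻¹ * c := by group
  rw [this]
  refine mul_mem (mem_sup_left ?_) (mem_sup_right hc)
  rw [mem_subgroupOf, coe_mul, ← e]
  simpa using hu

theorem index_sup_commutator {U C : Subgroup G} [C.Normal] (hf : U.index ≠ 0)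
    (hc : ∀ k ∈ C, ∃ a : G, a * k * a⁻¹ ∈ U) :
    (U ⊔ ⁅C, C⁆).index ≤ (U ⊔ C).index * (U ⊔ C).index := by
  have h0 : (U.subgroupOf C).index ≠ 0 := fun e => hf (by rw [index_eq_mul U C, e, zero_mul])
  rw [index_eq_mul _ C]
  refine Nat.mul_le_mul ((index_le_of_le ?_ (sup_index_ne_zero h0 _)).trans
    ((acov_subgroupOf U C (sup_index_ne_zero hf _) hc).sup_commutator h0))
    (index_le_of_le (sup_le_sup_right le_sup_left _) (sup_index_ne_zero hf _))
  refine sup_le (comap_mono le_sup_left) fun x hx => mem_sup_right ?_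
  rw [← map_commutator_subtype]
  exact ⟨x, hx, rfl⟩

theorem index_nx {U F X : Subgroup G} [F.Normal] {m d : ℕ} (hf : U.index ≠ 0) (h : U ≤ X)
    (hm : (U ⊔ F).index ≤ m) (hd : X.index ≤ d) (hc : ∀ k ∈ F, ∃ a : G, a * k * a⁻¹ ∈ U) :
    (nx U F X).index ≤ d ! * m * (d ! * m) := by
  have : U.FiniteIndex := ⟨hf⟩
  have : X.FiniteIndex := finiteIndex_of_le h
  have h1 : X.normalCore.index ∣ X.index ! := by
    rw [normalCore_eq_ker, index_ker, index_eq_card, ← Nat.card_perm]
    exact card_subgroup_dvd_card _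
  have h2 : (U ⊔ X.normalCore ⊓ F).index ≤ d ! * m := by
    rw [index_eq_mul _ F]
    refine Nat.mul_le_mul ?_ ((index_le_of_le (sup_le_sup_right le_sup_left _)
      (sup_index_ne_zero hf _)).trans hm)
    have h3 : X.normalCore.subgroupOf F ≤ (U ⊔ X.normalCore ⊓ F).subgroupOf F := fun x hx =>
      mem_subgroupOf.2 (mem_sup_right (mem_inf.2 ⟨hx, x.2⟩))
    refine (index_le_of_le h3 FiniteIndex.index_ne_zero).trans ?_
    exact (Nat.le_of_dvd (Nat.pos_of_ne_zero FiniteIndex.index_ne_zero)
      (relIndex_dvd_index_of_normal _ _)).trans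
      ((Nat.le_of_dvd (Nat.factorial_pos _) h1).trans (Nat.factorial_le hd))
  exact (index_sup_commutator (C := X.normalCore ⊓ F) hf fun k hk => hc k hk.2).trans (Nat.mul_le_mul h2 h2)

/-- The descending chain. -/
def ch (U F : Subgroup G) : ℕ → Subgroup G
  | 0 => ⊤
  | j + 1 => nx U F (ch U F j)

/-- The bound for the indices along the chain. -/
def bd (m : ℕ) : ℕ → ℕ
  | 0 => 1
  | j + 1 => (bd m j)! * m * ((bd m j)! * m)

theorem le_ch (U F : Subgroup G) (j : ℕ) : U ≤ ch U F j := by
  cases j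
  · exact le_top
  · exact le_sup_left

theorem ch_anti (U F : Subgroup G) [F.Normal] : Antitone (ch U F) :=
  antitone_nat_of_succ_le fun j => nx_le (le_ch U F j)

theorem index_ch {U F : Subgroup G} [F.Normal] {m : ℕ} (hf : U.index ≠ 0)
    (hm : (U ⊔ F).index ≤ m) (hc : ∀ k ∈ F, ∃ a : G, a * k * a⁻¹ ∈ U) (j : ℕ) :
    (ch U F j).index ≤ bd m j := by
  induction j with
  | zero => exact index_top.le
  | succ j ih => exact index_nx hf (le_ch U F j) hm ih hc

theorem lt_index_ch {p : ℕ} (hp : p.Prime) {U F : Subgroup G} [F.Normal] (hf : U.index ≠ 0)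
    (hE : ∀ x ∈ F, x ^ p = 1) (j : ℕ) (hj : j < U.index) : j < (ch U F j).index := by
  have : U.FiniteIndex := ⟨hf⟩
  induction j with
  | zero => simp [ch]
  | succ j ih =>
    by_cases h : ch U F (j + 1) = ch U F j
    · have h1 : (ch U F j).normalCore ⊓ F ≤ U := le_of_le_sup_commutator
        (fqn_of_pow hp fun g => Subtype.ext (hE g g.2.2)) hf
        ((inf_le_left.trans (normalCore_le _)).trans h.ge)
      have h2 : ch U F (j + 1) = U :=
        sup_of_le_left ((commutator_le_left _ _).trans h1)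
      rwa [h2]
    · have : (ch U F (j + 1)).FiniteIndex := finiteIndex_of_le (le_ch U F _)
      have := index_strictAnti (lt_of_le_of_ne (ch_anti U F j.le_succ) h)
      have := ih (by omega)
      simp only [Nat.succ_eq_add_one] at *
      omega

end idx

theorem locFin_of_sep {p : ℕ} (hp : 0 < p) (hR : RBP p) {G ι : Type} [Group G] {B : ι → Type}
    [∀ i, Group (B i)] [∀ i, Finite (B i)] (ψ : ∀ i, G →* B i)
    (hψ : ∀ g, (∀ i, ψ i g = 1) → g = 1) (hE : ∀ g : G, g ^ p = 1) : LocFin G := by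
  intro s hs
  obtain ⟨d, x, -, rfl⟩ := hs.fin_param
  obtain ⟨c, hc⟩ := hR d
  have h1 : (closure (Set.range x)).lowerCentralSeries c = ⊥ := by
    rw [eq_bot_iff]
    intro f hf
    refine mem_bot.2 (hψ f fun y => ?_)
    have e : closure (Set.range fun i => ψ y (x i)) = (closure (Set.range x)).map (ψ y) := by
      rw [MonoidHom.map_closure, ← Set.range_comp]
      rfl
    have h2 := hc (closure (Set.range fun i => ψ y (x i)))
      (fun g => Subtype.ext (by
        obtain ⟨g, -, h⟩ := e.le g.2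
        rw [coe_pow, ← h, ← map_pow, hE, map_one, coe_one]))
      (fun i => ⟨ψ y (x i), subset_closure ⟨i, rfl⟩⟩) (by
        rw [eq_top_iff, ← closure_closure_coe_preimage]
        refine closure_mono ?_
        rintro ⟨_, _⟩ ⟨i, rfl⟩
        exact ⟨i, rfl⟩)
    have h3 := congrArg (Subgroup.map (Subgroup.subtype _)) h2
    rw [top_subtype_lowerCentralSeries, Subgroup.map_bot, e, ← map_lowerCentralSeries] at h3
    exact mem_bot.1 (h3 ▸ ⟨f, hf, rfl⟩)
  have h2 : Group.IsNilpotent (closure (Set.range x)) :=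
    (isNilpotent_iff_lowerCentralSeries _).2 ⟨c, h1⟩
  have h3 : Finite (closure (Set.range x)) :=
    finite_of_nilpotent hp _ (Group.closure_finite_fg _) fun g => Subtype.ext (hE _)
  exact Set.toFinite _

section ultra
variable {A : ℕ → Type} [∀ i, Group (A i)]

/-- The elements of the product lying almost everywhere in the given subgroups. -/
def ul (Y : ∀ i, Subgroup (A i)) : Subgroup (∀ i, A i) where
  carrier := {a | ∀ᶠ i in hyperfilter ℕ, a i ∈ Y i}
  one_mem' := Eventually.of_forall fun i => (Y i).one_mem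
  mul_mem' := fun ha hb => (ha.and hb).mono fun i h => (Y i).mul_mem h.1 h.2
  inv_mem' := fun ha => ha.mono fun i h => (Y i).inv_mem h

theorem index_ul_le (Y : ∀ i, Subgroup (A i)) {g : ℕ} (hf : ∀ i, (Y i).index ≠ 0)
    (h : ∀ i, (Y i).index ≤ g) : (ul Y).index ≠ 0 ∧ (ul Y).index ≤ g := by
  choose t ht using fun i => exists_fun_of_index_le (Y i) (hf i) (h i)
  have : ∀ a : ∀ i, A i, ∃ k, ∀ᶠ i in hyperfilter ℕ, t i (a i) = k := fun a =>
    Ultrafilter.eventually_exists_iff.1 (Eventually.of_forall fun i => ⟨_, rfl⟩)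
  choose T hT using this
  exact index_le_of_fun _ T fun a b e =>
    ((hT a).and (hT b)).mono fun i h => ht i _ _ (h.1.trans (e.trans h.2.symm))

theorem lt_index_ul (Y : ∀ i, Subgroup (A i)) {j : ℕ} (hf : (ul Y).index ≠ 0)
    (h : ∀ᶠ i in hyperfilter ℕ, j < (Y i).index) : j < (ul Y).index := by
  choose r hr using fun i => exists_fun_of_lt_index (Y i) j
  refine lt_index_of_fun _ hf (fun k i => r i k) fun k l e => ?_
  obtain ⟨i, h1, h2⟩ := (h.and e).exists
  exact hr i h1 k l h2

end ultra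

/-- The bound for a normal subgroup of exponent `p`. -/
theorem exists_bound {p : ℕ} (hp : p.Prime) (hR : RBP p) (hT : T3 p) (m : ℕ) :
    ∃ b, ∀ (A : Type) [Group A] [Finite A] (F U : Subgroup A) [F.Normal], (∀ x ∈ F, x ^ p = 1) →
      (U ⊔ F).index ≤ m → (∀ k ∈ F, ∃ a : A, a * k * a⁻¹ ∈ U) → U.index ≤ b := by
  by_contra! h
  choose A gA fA F U nF hE hm hc hb using h
  have hf : ∀ i, (U i).index ≠ 0 := fun i => index_ne_zero_of_finite
  let P : Subgroup (∀ i, A i) := pi Set.univ F
  have : P.Normal := ⟨fun x hx g i _ => (nF i).conj_mem _ (hx i trivial) _⟩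
  have h1 := fun j => index_ul_le (fun i => ch (U i) (F i) j) (fun _ => index_ne_zero_of_finite)
    fun i => index_ch (hf i) (hm i) (hc i) j
  obtain ⟨b, hb'⟩ := bounded (m := m) hp hT P (locFin_of_sep hp.pos hR
      (fun i => (Pi.evalMonoidHom A i).comp P.subtype) (fun g hg => Subtype.ext (funext hg))
      fun g => Subtype.ext (funext fun i => hE i _ (g.2 i trivial)))
    (fun x hx => funext fun i => hE i _ (hx i trivial)) (fun j => ul fun i => ch (U i) (F i) j)
    (fun j k hjk a ha => ha.mono fun i h => ch_anti _ _ hjk h) (fun j => (h1 j).1)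
    (fun j => by
      have h2 := index_ul_le (fun i => U i ⊔ F i) (fun _ => index_ne_zero_of_finite) hm
      refine (index_le_of_le (fun a ha => ?_) h2.1).trans h2.2
      have : ∀ i, ∃ f ∈ F i, a i ∈ U i ⊔ F i → a i * f⁻¹ ∈ U i := fun i => by
        by_cases h : a i ∈ U i ⊔ F i
        · obtain ⟨u, hu, f, hf, e⟩ := mem_sup_of_normal_right.1 h
          exact ⟨f, hf, fun _ => by rw [← e]; simpa using hu⟩
        · exact ⟨1, one_mem _, fun h' => absurd h' h⟩
      choose f h3 h4 using this
      have e : a = a * f⁻¹ * f := by group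
      rw [e]
      exact mul_mem (mem_sup_left (ha.mono fun i h => le_ch _ _ _ (h4 i h)))
        (mem_sup_right fun i _ => h3 i))
    fun j k hk => by
      choose a ha using fun i => hc i (k i) (hk i trivial)
      exact ⟨a, Eventually.of_forall fun i => le_ch _ _ _ (ha i)⟩
  refine absurd (hb' b) (not_le.2 (lt_index_ul _ (h1 b).1 ?_))
  exact ((eventually_ge_atTop b).filter_mono Nat.hyperfilter_le_atTop).mono fun i hi =>
    lt_index_ch hp (hf i) (hE i) b (lt_of_le_of_lt hi (hb i))

end Pool.Agent.P.MP_169bcc_al
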