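import Pool.Agent.P.MP_169bcc_al.Compact
import Pool.Agent.P.MP_1307d3_al.GT3
import Pool.Agent.P.MP_1307d3_al.GJor

/-! Passing from one normal subgroup of the ambient group to the next. -/

namespace Pool.Agent.P.MP_169bcc_al

open Subgroup
open scoped commutatorElement

/-- Every element of `F` has a conjugate in `U`. -/
def Cov {A : Type*} [Group A] (U F : Subgroup A) : Prop := ∀ k ∈ F, ∃ a : A, a * k * a⁻¹ ∈ U

theorem Cov.mono {A : Type*} [Group A] {U F E : Subgroup A} (h : Cov U F) (hE : E ≤ F) :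
    Cov U E := fun k hk => h k (hE hk)

theorem t3 {p : ℕ} (hp : p.Prime) : MP_1307d3_al.End.T3 p :=
  MP_1307d3_al.Grp.t3_of_step hp fun h5 _ _ hL hE _ _ _ C inj _ L nil _ nil2 _ a1 ha =>
    MP_1307d3_al.Grp.exists_quadratic hp h5 hL hE C inj L nil nil2 a1 ha

section
variable {A : Type*} [Group A]

theorem index_map_sup_le {U : Subgroup A} (hf : U.index ≠ 0) (D E : Subgroup A) [D.Normal] :
    (U.map (QuotientGroup.mk' D) ⊔ E.map (QuotientGroup.mk' D)).index ≤ (U ⊔ E).index := by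
  rw [← Subgroup.map_sup, index_map_mk]
  exact index_le_of_le le_sup_left (sup_index_ne_zero hf _)

/-- A nilpotent normal subgroup without elements of small prime order lies in `U`. -/
theorem le_of_large [Finite A] {U F : Subgroup A} [F.Normal] {m : ℕ} (hF : FQN F)
    (hm : (U ⊔ F).index ≤ m) (hc : Cov U F)
    (hq : ∀ q, q.Prime → q ≤ m → ∀ x ∈ F, x ^ q = 1 → x = 1) : F ≤ U := by
  rw [← subgroupOf_eq_top]
  refine hF.eq_top index_ne_zero_of_finite (index_eq_one.1 ?_)
  by_contra h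
  have h1 := ((acov_subgroupOf U F index_ne_zero_of_finite hc).sup_commutator
    index_ne_zero_of_finite).trans hm
  have h2 := Nat.minFac_prime h
  have := Fact.mk h2
  obtain ⟨x, hx⟩ := exists_prime_orderOf_dvd_card' (G := F) _
    ((Nat.minFac_dvd _).trans (index_dvd_card (U.subgroupOf F ⊔ _root_.commutator F)))
  have h3 := hq _ h2 ((Nat.minFac_le (Nat.pos_of_ne_zero index_ne_zero_of_finite)).trans h1) x x.2
    (by rw [← coe_pow, ← hx, pow_orderOf_eq_one, coe_one])
  rw [Subtype.ext h3 (a1 := x) (a2 := 1), orderOf_one] at hx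
  exact h2.ne_one hx.symm

end

theorem step_prime (m : ℕ) : ∃ b, ∀ (A : Type) [Group A] [Finite A] (U D E : Subgroup A)
    [D.Normal] [E.Normal] (p : ℕ), p.Prime → (∀ x ∈ E, x ^ p ∈ D) → Cov U E →
    (U ⊔ E).index ≤ m → (U ⊔ D).index ≤ b := by
  have h : ∀ p : ℕ, ∃ b, p.Prime → ∀ (A : Type) [Group A] [Finite A] (F U : Subgroup A)
      [F.Normal], (∀ x ∈ F, x ^ p = 1) → (U ⊔ F).index ≤ m → Cov U F → U.index ≤ b := fun p => by
    by_cases hp : p.Prime
    · exact (exists_bound hp (MP_1307d3_al.End.rbp hp) (t3 hp) m).imp fun _ h _ => h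
    · exact ⟨0, fun h => absurd h hp⟩
  choose b hb using h
  refine ⟨max m ((Finset.range (m + 1)).sup b), fun A _ _ U D E _ _ p hp hE hc hm => ?_⟩
  have := Normal.map ‹E.Normal› _ (QuotientGroup.mk'_surjective D)
  have h1 : ∀ x ∈ E.map (QuotientGroup.mk' D), x ^ p = 1 := by
    rintro _ ⟨x, hx, rfl⟩
    rw [← map_pow, QuotientGroup.mk'_apply, QuotientGroup.eq_one_iff]
    exact hE x hx
  have h2 := (index_map_sup_le index_ne_zero_of_finite D E).trans hm
  rw [← index_map_mk]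
  by_cases hpm : p ≤ m
  · exact (hb p hp _ _ _ h1 h2 (cover_map D hc)).trans (le_max_of_le_right
      (Finset.le_sup (f := b) (Finset.mem_range.2 (by omega))))
  · have h3 := le_of_large (fqn_of_pow hp fun g => Subtype.ext (h1 g g.2)) h2 (cover_map D hc)
      fun q hq hqm x hx h => by
        have := pow_gcd_eq_one.2 ⟨h, h1 x hx⟩
        rwa [(Nat.coprime_primes hq hp).2 (by omega), pow_one] at this
    rw [sup_of_le_left h3] at h2
    exact h2.trans (le_max_left _ _)

/-- The product of the primes below `t`. -/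
def pr (t : ℕ) : ℕ := ∏ i ∈ Finset.range t, if i.Prime then i else 1

theorem pow_mul_eq_one {G : Type*} [Group G] [Finite G] [Group.IsNilpotent G] {e : ℕ}
    (he : Squarefree e) (hE : ∀ x : G, x ^ e = 1) (d : ℕ) {x y : G} (hx : x ^ d = 1)
    (hy : y ^ d = 1) : (x * y) ^ d = 1 := by
  let f := Sylow.directProductOfNormal (G := G) fun P => inferInstance
  obtain ⟨x, rfl⟩ := f.surjective x
  obtain ⟨y, rfl⟩ := f.surjective y
  rw [← map_pow, map_eq_one_iff f f.injective] at hx hy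
  rw [← map_mul, ← map_pow, map_eq_one_iff f f.injective]
  funext p P
  have hp := Nat.prime_of_mem_primeFactors p.2
  have h1 : ∀ z : P, z ^ (p : ℕ) = 1 := fun z => by
    obtain ⟨k, hk⟩ := P.isPGroup' z
    have h2 : orderOf z ∣ e := orderOf_dvd_of_pow_eq_one (Subtype.ext (hE z))
    exact orderOf_dvd_iff_pow_eq_one.1
      ((he.squarefree_of_dvd h2).isRadical k _ (orderOf_dvd_of_pow_eq_one hk))
  by_cases h : (p : ℕ) ∣ d
  · obtain ⟨c, rfl⟩ := h
    simp only [Pi.pow_apply, Pi.one_apply, pow_mul, h1, one_pow]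
  · have h2 : ∀ z : P, z ^ d = 1 → z = 1 := fun z hz => by
      have := pow_gcd_eq_one.2 ⟨h1 z, hz⟩
      rwa [(Nat.Prime.coprime_iff_not_dvd hp).2 h, pow_one] at this
    simp only [Pi.pow_apply, Pi.mul_apply, Pi.one_apply, h2 _ (congrFun (congrFun hx p) P),
      h2 _ (congrFun (congrFun hy p) P), mul_one, one_pow]

theorem step_chain (r m : ℕ) : ∃ b, ∀ (A : Type) [Group A] [Finite A] (U : Subgroup A)
    (C : ℕ → Subgroup A) [∀ t, (C t).Normal], (∀ t, ∃ p : ℕ, p.Prime ∧ ∀ x ∈ C (t + 1), x ^ p ∈ C t)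
    → (∀ t, Cov U (C t)) → (U ⊔ C r).index ≤ m → (U ⊔ C 0).index ≤ b := by
  induction r generalizing m with
  | zero => exact ⟨m, fun _ _ _ _ _ _ _ _ h => h⟩
  | succ r ih =>
    obtain ⟨b, hb⟩ := step_prime m
    obtain ⟨b', hb'⟩ := ih b
    refine ⟨b', fun A _ _ U C _ h hc hm => hb' A U C h hc ?_⟩
    obtain ⟨p, hp, h1⟩ := h r
    exact hb A U _ _ p hp h1 (hc _) hm

/-- `E` is nilpotent of squarefree exponent modulo `D`. -/
def SqN {G : Type*} [Group G] (D E : Subgroup G) : Prop :=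
  ∃ e c : ℕ, Squarefree e ∧ (∀ x ∈ E, x ^ e ∈ D) ∧ E.lowerCentralSeries c ≤ D

theorem bound_sq (m : ℕ) : ∃ b, ∀ (A : Type) [Group A] [Finite A] (U F : Subgroup A) [F.Normal],
    SqN ⊥ F → Cov U F → (U ⊔ F).index ≤ m → U.index ≤ b := by
  obtain ⟨b, hb⟩ := step_chain (m + 1) m
  refine ⟨b, fun A _ _ U F hF ⟨e, c, he, hE, hn⟩ hc hm => ?_⟩
  have : Group.IsNilpotent F := (isNilpotent_iff_lowerCentralSeries _).2 ⟨c, le_bot_iff.1 hn⟩
  let C : ℕ → Subgroup A := fun t =>
    { carrier := {x | x ∈ F ∧ x ^ pr t = 1}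
      one_mem' := ⟨F.one_mem, one_pow _⟩
      mul_mem' := fun {x y} hx hy => ⟨F.mul_mem hx.1 hy.1, congrArg Subtype.val
        (pow_mul_eq_one (G := F) he (fun x => Subtype.ext (hE x x.2)) (pr t) (x := ⟨x, hx.1⟩)
          (y := ⟨y, hy.1⟩) (Subtype.ext hx.2) (Subtype.ext hy.2))⟩
      inv_mem' := fun {x} hx => ⟨F.inv_mem hx.1, by rw [inv_pow, hx.2, inv_one]⟩ }
  have hC : ∀ t, (C t).Normal := fun t => ⟨fun x hx g =>
    ⟨hF.conj_mem x hx.1 g, by rw [conj_pow, hx.2, mul_one, mul_inv_cancel]⟩⟩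
  have h0 : C 0 = ⊥ := le_bot_iff.1 fun x hx => by simpa [pr] using hx.2
  have := hb A U C (fun t => ?_) (fun t => hc.mono fun x hx => hx.1) ?_
  · rwa [h0, sup_bot_eq] at this
  · have h1 : pr (t + 1) = pr t * if t.Prime then t else 1 := Finset.prod_range_succ _ _
    by_cases ht : t.Prime
    · refine ⟨t, ht, fun x hx => ⟨F.pow_mem hx.1 _, ?_⟩⟩
      have := hx.2
      rwa [h1, if_pos ht, mul_comm, pow_mul] at this
    · refine ⟨2, Nat.prime_two, fun x hx => (C t).pow_mem ⟨hx.1, ?_⟩ _⟩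
      have := hx.2
      rwa [h1, if_neg ht, mul_one] at this
  · have hs := QuotientGroup.mk'_surjective (C (m + 1))
    have := Normal.map hF _ hs
    have h2 := (index_map_sup_le index_ne_zero_of_finite (C (m + 1)) F).trans hm
    have h3 := le_of_large (fun _ _ _ => ?_) h2 (cover_map _ hc) ?_
    · rwa [sup_of_le_left h3, index_map_mk] at h2
    · have := Group.nilpotent_of_surjective _ ((QuotientGroup.mk' (C (m + 1))).subgroupMap_surjective F)
      infer_instance
    · rintro q hq hqm _ ⟨x, hx, rfl⟩ h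
      rw [← map_pow, QuotientGroup.mk'_apply, QuotientGroup.eq_one_iff] at h
      rw [QuotientGroup.mk'_apply, QuotientGroup.eq_one_iff]
      refine ⟨hx, orderOf_dvd_iff_pow_eq_one.1 ((he.squarefree_of_dvd (orderOf_dvd_of_pow_eq_one
        (hE x hx))).isRadical 2 _ ((orderOf_dvd_of_pow_eq_one ((pow_mul x q _).trans h.2)).trans
          ?_))⟩
      rw [pow_two]
      refine Nat.mul_dvd_mul_right ?_ _
      have := Finset.dvd_prod_of_mem (fun i => if i.Prime then i else 1)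
        (Finset.mem_range.2 (Nat.lt_succ_of_le hqm))
      rwa [if_pos hq] at this

theorem SqN.map {G G' : Type*} [Group G] [Group G'] {D E : Subgroup G} (h : SqN D E)
    (f : G →* G') : SqN (D.map f) (E.map f) := by
  obtain ⟨e, c, he, h1, h2⟩ := h
  refine ⟨e, c, he, ?_, map_lowerCentralSeries E f c ▸ map_mono h2⟩
  rintro _ ⟨x, hx, rfl⟩
  exact ⟨_, h1 x hx, map_pow _ _ _⟩

theorem SqN.mono {G : Type*} [Group G] {D E D' E' : Subgroup G} (h : SqN D E) (hD : D ≤ D')
    (hE : E' ≤ E) : SqN D' E' := by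
  obtain ⟨e, c, he, h1, h2⟩ := h
  exact ⟨e, c, he, fun x hx => hD (h1 x (hE hx)), (lowerCentralSeries_mono c hE).trans (h2.trans hD)⟩

theorem SqN.core {G : Type*} [Group G] {D E : Subgroup G} (h : SqN D E) :
    SqN D.normalCore E.normalCore := by
  obtain ⟨e, c, he, h1, h2⟩ := h
  refine ⟨e, c, he, fun x hx g => ?_, normal_le_normalCore.2
    ((lowerCentralSeries_mono c E.normalCore_le).trans h2)⟩
  rw [← conj_pow]
  exact h1 _ (hx g)

theorem SqN.sup {G : Type*} [Group G] {D E : Subgroup G} [D.Normal] (h : SqN D E) :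
    SqN D (D ⊔ E) := by
  have h0 : D.map (QuotientGroup.mk' D) = ⊥ :=
    (Subgroup.map_eq_bot_iff D).2 (by rw [QuotientGroup.ker_mk'])
  obtain ⟨e, c, he, h1, h2⟩ := h.map (QuotientGroup.mk' D)
  have h3 : (D ⊔ E).map (QuotientGroup.mk' D) = E.map (QuotientGroup.mk' D) := by
    rw [Subgroup.map_sup, h0, bot_sup_eq]
  rw [h0, ← h3] at h1 h2
  refine ⟨e, c, he, fun x hx => ?_, ?_⟩
  · have := h1 _ ⟨x, hx, rfl⟩
    rwa [← map_pow, mem_bot, QuotientGroup.mk'_apply, QuotientGroup.eq_one_iff] at this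
  · rwa [← map_lowerCentralSeries, le_bot_iff, Subgroup.map_eq_bot_iff,
      QuotientGroup.ker_mk'] at h2

theorem step_sq (r m : ℕ) : ∃ b, ∀ (A : Type) [Group A] [Finite A] (U : Subgroup A)
    (C : ℕ → Subgroup A) [∀ t, (C t).Normal], (∀ t, SqN (C t) (C (t + 1))) →
    (∀ t, Cov U (C t)) → (U ⊔ C r).index ≤ m → (U ⊔ C 0).index ≤ b := by
  induction r generalizing m with
  | zero => exact ⟨m, fun _ _ _ _ _ _ _ _ h => h⟩
  | succ r ih =>
    obtain ⟨b, hb⟩ := bound_sq m
    obtain ⟨b', hb'⟩ := ih b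
    refine ⟨b', fun A _ _ U C hC h hc hm => hb' A U C h hc ?_⟩
    have := Normal.map (hC (r + 1)) _ (QuotientGroup.mk'_surjective (C r))
    rw [← index_map_mk]
    exact hb _ _ _ (((h r).map (QuotientGroup.mk' (C r))).mono
      ((Subgroup.map_eq_bot_iff _).2 (by rw [QuotientGroup.ker_mk'])).le le_rfl)
      (cover_map _ (hc _)) ((index_map_sup_le index_ne_zero_of_finite _ _).trans hm)

/-- One layer of a normal series of `H`. -/
theorem step_layer (n c m : ℕ) : ∃ b, ∀ (A : Type) [Group A] [Finite A] (H U D : Subgroup A)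
    [H.Normal] [D.Normal] (S S' : Subgroup H) [S'.Normal], H.index ≤ n → Cov U H → D ≤ H →
    S ≤ D.subgroupOf H →
    (SqN S S' ∨ S' ≤ sSup {V : Subgroup H | V.Normal ∧ V.lowerCentralSeries c ≤ S}) →
    (∀ E : Subgroup A, E.Normal → E ≤ H → S' ≤ E.subgroupOf H → (U ⊔ E).index ≤ m) →
    (U ⊔ D).index ≤ b := by
  obtain ⟨b, hb⟩ := step_sq n m
  refine ⟨max b (m ^ (c * m * m) * m), fun A _ _ H U D hH hD S S' _ hn hc hDH hS h hm => ?_⟩
  rcases h with h | h
  · obtain ⟨t, ht⟩ := exists_fun_of_index_le H index_ne_zero_of_finite hn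
    have hr : ∀ i : ℕ, ∃ r : A, ∀ a, (t a : ℕ) = i → r⁻¹ * a ∈ H := fun i => by
      by_cases h : ∃ a, (t a : ℕ) = i
      · obtain ⟨r, rfl⟩ := h
        exact ⟨r, fun a ha => ht _ _ (Fin.ext ha.symm)⟩
      · exact ⟨1, fun a ha => absurd ⟨a, ha⟩ h⟩
    choose r hr using hr
    have hT : ∀ i, ∃ T : Subgroup H, T.Normal ∧ SqN (D.subgroupOf H) T ∧
        ∀ x ∈ S', MulAut.conjNormal (r i) x ∈ T := fun i => by
      refine ⟨S'.map (MulAut.conjNormal (r i)).toMonoidHom,
        Normal.map ‹_› _ (MulAut.conjNormal _).surjective, (h.map _).mono ?_ le_rfl,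
        fun x hx => ⟨x, hx, rfl⟩⟩
      rintro _ ⟨x, hx, rfl⟩
      exact hD.conj_mem _ (hS hx) _
    choose T hT hT1 hT2 using hT
    obtain ⟨P, hP0, hPs⟩ : ∃ P : ℕ → Subgroup H, P 0 = D.subgroupOf H ∧
        ∀ i, P (i + 1) = P i ⊔ T i :=
      ⟨fun i => Nat.rec (D.subgroupOf H) (fun i Q => Q ⊔ T i) i, rfl, fun _ => rfl⟩
    have hP : ∀ i, (P i).Normal := fun i => by
      induction i with
      | zero => rw [hP0]; infer_instance
      | succ i ih => rw [hPs]; infer_instance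
    have hPm : Monotone P := monotone_nat_of_le_succ fun i => (hPs i).symm ▸ le_sup_left
    have h1 := hb A U (fun i => ((P i).map H.subtype).normalCore) (fun i => ?_)
      (fun i => hc.mono ((normalCore_le _).trans (map_subtype_le _)))
      (hm _ inferInstance ((normalCore_le _).trans (map_subtype_le _)) fun x hx a => ?_)
    · have e : ((P 0).map H.subtype).normalCore = D := by
        rw [hP0, map_subgroupOf_eq_of_le hDH, normalCore_eq_self]
      rw [e] at h1
      exact h1.trans (le_max_left _ _)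
    · rw [hPs]
      exact (SqN.map (SqN.sup ((hT1 i).mono (hP0 ▸ hPm i.zero_le) le_rfl)) _).core
    · refine ⟨_, hPm (show (t a : ℕ) + 1 ≤ n from (t a).2) ((hPs _).ge (mem_sup_right
        (hT2 _ _ (Normal.conj_mem ‹_› x hx ⟨_, hr _ a rfl⟩)))), ?_⟩
      simp only [coe_subtype, MulAut.conjNormal_apply, coe_mul, InvMemClass.coe_inv]
      group
  · have hs := QuotientGroup.mk'_surjective D
    have := Normal.map hH _ hs
    obtain ⟨K, hK, h1, h2, h3⟩ := exists_fit (H.map (QuotientGroup.mk' D)) c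
    have h4 := hm (K.comap (QuotientGroup.mk' D)) inferInstance ((comap_mono h1).trans (by
      rw [comap_map_eq, QuotientGroup.ker_mk', sup_of_le_left hDH])) (h.trans (sSup_le ?_))
    · rw [← index_map_mk]
      refine (index_le_of_genNil _ K index_ne_zero_of_finite ?_
        (fun k hk => cover_map D hc k (h1 hk)) h2).trans (le_max_right _ _)
      rw [← map_comap_eq_self_of_surjective hs K]
      exact (index_map_sup_le index_ne_zero_of_finite _ _).trans h4
    · rintro V ⟨hV, h5⟩ x hx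
      refine h3 (V.map ((QuotientGroup.mk' D).comp H.subtype)) ?_ ?_ ?_ ⟨x, hx, rfl⟩
      · rintro _ ⟨y, -, rfl⟩
        exact ⟨y, y.2, rfl⟩
      · rw [← map_lowerCentralSeries, Subgroup.map_eq_bot_iff]
        exact fun y hy => (QuotientGroup.eq_one_iff _).2 (hS (h5 hy))
      · rintro _ ⟨g, hg, rfl⟩ _ ⟨y, hy, rfl⟩
        exact ⟨_, hV.conj_mem y hy ⟨g, hg⟩, by simp⟩

theorem layered (n k : ℕ) : ∃ b, ∀ (A : Type) [Group A] [Finite A] (H U : Subgroup A) [H.Normal],
    U ≤ H → H.index ≤ n → Cov U H → ∀ S : ℕ → Subgroup H, (∀ i, (S i).Normal) → S 0 = ⊥ →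
    S k = ⊤ → (∀ i < k, SqN (S i) (S (i + 1)) ∨
      S (i + 1) ≤ sSup {V : Subgroup H | V.Normal ∧ V.lowerCentralSeries k ≤ S i}) →
    U.index ≤ b := by
  have key : ∀ j ≤ k, ∃ b, ∀ (A : Type) [Group A] [Finite A] (H U : Subgroup A) [H.Normal],
      U ≤ H → H.index ≤ n → Cov U H → ∀ S : ℕ → Subgroup H, (∀ i, (S i).Normal) →
      S k = ⊤ → (∀ i < k, SqN (S i) (S (i + 1)) ∨
        S (i + 1) ≤ sSup {V : Subgroup H | V.Normal ∧ V.lowerCentralSeries k ≤ S i}) →
      ∀ E : Subgroup A, E.Normal → E ≤ H → S j ≤ E.subgroupOf H → (U ⊔ E).index ≤ b := by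
    intro j hj
    induction hj using Nat.decreasingInduction with
    | self =>
      refine ⟨n, fun A _ _ H U _ _ hn _ S _ hk _ E _ _ h => (index_le_of_le ?_
        index_ne_zero_of_finite).trans hn⟩
      rw [hk, top_le_iff, subgroupOf_eq_top] at h
      exact h.trans le_sup_right
    | of_succ j hj ih =>
      obtain ⟨m, hm⟩ := ih
      obtain ⟨b, hb⟩ := step_layer n k m
      exact ⟨b, fun A _ _ H U _ hU hn hc S hS hk h E _ hE h1 =>
        hb A H U E (S j) (S (j + 1)) hn hc hE h1 (h j hj) (hm A H U hU hn hc S hS hk h)⟩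
  obtain ⟨b, hb⟩ := key 0 k.zero_le
  refine ⟨b, fun A _ _ H U _ hU hn hc S hS h0 hk h => ?_⟩
  simpa using hb A H U hU hn hc S hS hk h ⊥ inferInstance bot_le (h0 ▸ bot_le)

end Pool.Agent.P.MP_169bcc_al
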