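import Pool.Agent.P.MP_169bcc_al.Basic
import Pool.Agent.P.MP_1307d3_al.End

/-! A locally finite normal subgroup of prime exponent covered along a descending chain. -/

namespace Pool.Agent.P.MP_169bcc_al

open Subgroup Pool.Agent.P.MP_1307d3_al.End
open scoped commutatorElement

theorem exists_mem_directed {G : Type*} [Group G] (hG : FQN G) {s : ℕ} (W : ℕ → Subgroup G)
    (hW : Antitone W) (hf : ∀ j, (W j).index ≠ 0) (hc : ∀ j, ACov s (W j))
    (S : Set (Subgroup G)) (hd : DirectedOn (· ≤ ·) S) (hS : ∀ g : G, ∃ Y ∈ S, g ∈ Y) :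
    ∃ Y ∈ S, ∀ j, W j ⊔ Y = ⊤ := by
  let T : ℕ → Subgroup G := fun j => W j ⊔ _root_.commutator G
  have hT : ∀ j, (T j).FiniteIndex := fun j => ⟨sup_index_ne_zero (hf j) _⟩
  obtain ⟨j0, hj0⟩ : ∃ j0, ∀ j, (T j).index ≤ (T j0).index := by
    by_contra! h
    have : ∀ n, ∃ j, n ≤ (T j).index := by
      intro n
      induction n with
      | zero => exact ⟨0, Nat.zero_le _⟩
      | succ n ih =>
        obtain ⟨j, hj⟩ := ih
        obtain ⟨j', hj'⟩ := h j
        exact ⟨j', by omega⟩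
    obtain ⟨j, hj⟩ := this (s + 1)
    have := (hc j).sup_commutator (hf j)
    simp only [T] at hj
    omega
  have h1 : ∀ j, T j0 ≤ T j := by
    intro j
    have h2 : T (max j j0) ≤ T j0 := sup_le_sup_right (hW (le_max_right _ _)) _
    have h3 : T (max j j0) = T j0 := by
      by_contra h
      exact absurd (hj0 _) (not_le.2 (index_strictAnti (lt_of_le_of_ne h2 h)))
    exact h3 ▸ sup_le_sup_right (hW (le_max_left _ _)) _
  obtain ⟨Y0, hY0, -⟩ := hS 1
  obtain ⟨Y, hY, hmin⟩ := (measure fun Y : Subgroup G => (T j0 ⊔ Y).index).wf.has_min S ⟨Y0, hY0⟩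
  have h2 : T j0 ⊔ Y = ⊤ := by
    rw [eq_top_iff]
    intro g _
    by_contra hg
    obtain ⟨Y', hY', hg'⟩ := hS g
    obtain ⟨Z, hZ, h3, h4⟩ := hd Y hY Y' hY'
    have : (T j0 ⊔ Y).FiniteIndex := finiteIndex_of_le (le_sup_left : T j0 ≤ _)
    exact hmin Z hZ (index_strictAnti (lt_of_le_of_ne (sup_le_sup_left h3 _) fun e =>
      hg (e ▸ mem_sup_right (h4 hg'))))
  refine ⟨Y, hY, fun j => hG.eq_top (sup_index_ne_zero (hf j) _) (top_le_iff.1 ?_)⟩
  rw [sup_right_comm, ← h2]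
  exact sup_le_sup_right (h1 j) _

theorem index_map_mk {A : Type*} [Group A] (X R : Subgroup A) [R.Normal] :
    (X.map (QuotientGroup.mk' R)).index = (X ⊔ R).index := by
  rw [index_map, QuotientGroup.ker_mk',
    MonoidHom.range_eq_top_of_surjective _ (QuotientGroup.mk'_surjective R), index_top, mul_one]

theorem index_le_of_le {A : Type*} [Group A] {X Y : Subgroup A} (h : X ≤ Y) (hf : X.index ≠ 0) :
    Y.index ≤ X.index :=
  have : X.FiniteIndex := ⟨hf⟩
  index_antitone h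

theorem cover_map {A : Type*} [Group A] {X F : Subgroup A} (R : Subgroup A) [R.Normal]
    (hc : ∀ k ∈ F, ∃ a : A, a * k * a⁻¹ ∈ X) : ∀ k ∈ F.map (QuotientGroup.mk' R), ∃ a : A ⧸ R,
      a * k * a⁻¹ ∈ X.map (QuotientGroup.mk' R) := by
  rintro _ ⟨k, hk, rfl⟩
  obtain ⟨a, ha⟩ := hc k hk
  exact ⟨QuotientGroup.mk' R a, _, ha, by simp⟩

/-- A nontrivial normal subgroup generated by abelian normal subgroups. -/
theorem exists_genNil {p : ℕ} (hT : T3 p) {Q : Type} [Group Q] (F : Subgroup Q) [F.Normal]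
    (h0 : F ≠ ⊥) (hL : LocFin F) (hE : ∀ x ∈ F, x ^ p = 1) :
    ∃ K : Subgroup Q, K.Normal ∧ K ≤ F ∧ K ≠ ⊥ ∧ GenNil 1 K := by
  have := (nontrivial_iff_ne_bot F).2 h0
  obtain ⟨N, V, hN, hVN, hV0, hVc, hVn⟩ := hT F hL fun g => Subtype.ext (hE g g.2)
  obtain ⟨K, hK, h1, h2, h3⟩ := exists_fit (N.map F.subtype) 1
  refine ⟨K, hK, h1.trans (map_subtype_le _), fun h => hV0 ?_, h2⟩
  rw [← map_eq_bot_iff_of_injective _ F.subtype_injective, eq_bot_iff, ← h]
  refine h3 _ (map_mono hVN) ?_ ?_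
  · rw [← map_lowerCentralSeries, eq_bot_iff, map_le_iff_le_comap,
      Subgroup.lowerCentralSeries_succ, Subgroup.lowerCentralSeries_zero, commutator_le]
    intro a ha b hb
    rw [commutatorElement_eq_one_iff_mul_comm.2 (hVc a ha b hb)]
    exact one_mem _
  · rintro _ ⟨n, hn, rfl⟩ _ ⟨a, ha, rfl⟩
    exact ⟨_, hVn n hn a ha, by simp⟩

theorem bounded {p m : ℕ} (hp : p.Prime) (hT : T3 p) {A : Type} [Group A] (F : Subgroup A)
    [F.Normal] (hL : LocFin F) (hE : ∀ x ∈ F, x ^ p = 1) (X : ℕ → Subgroup A) (hX : Antitone X)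
    (hf : ∀ j, (X j).index ≠ 0) (hm : ∀ j, (X j ⊔ F).index ≤ m)
    (hc : ∀ j, ∀ k ∈ F, ∃ a : A, a * k * a⁻¹ ∈ X j) : ∃ b, ∀ j, (X j).index ≤ b := by
  by_contra! hb
  let C : Set (Subgroup A) := {R | R.Normal ∧ R ≤ F ∧ ∀ b, ∃ j, b < (X j ⊔ R).index}
  obtain ⟨R, -, hR⟩ := zorn_le_nonempty₀ C (fun c hcC hch y hy => by
    have hdir : DirectedOn (· ≤ ·) c := hch.directedOn
    have hn : (sSup c).Normal := sSup_normal c fun R h => (hcC h).1
    have hF : sSup c ≤ F := sSup_le fun R h => (hcC h).2.1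
    refine ⟨sSup c, ⟨hn, hF, fun b => ?_⟩, fun z hz => le_sSup hz⟩
    by_contra! h
    obtain ⟨_, ⟨R, hR, rfl⟩, h1⟩ := exists_mem_directed
      (fqn_of_pow (G := (sSup c : Subgroup A)) hp fun g => Subtype.ext (hE g (hF g.2)))
      (fun j => (X j).subgroupOf (sSup c)) (fun i j hij => comap_mono (hX hij))
      (fun j e => hf j (by rw [index_eq_mul _ (sSup c), e, zero_mul]))
      (fun j => (acov_subgroupOf _ _ (sup_index_ne_zero (hf j) _)
        fun k hk => hc j k (hF hk)).mono (h j) le_rfl)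
      ((fun R => R.subgroupOf (sSup c)) '' c)
      (hdir.mono_comp (g := fun R => R.subgroupOf (sSup c)) fun _ _ h => comap_mono h)
      fun g => by
        obtain ⟨R, hR, hg⟩ := (mem_sSup_of_directedOn ⟨y, hy⟩ hdir).1 g.2
        exact ⟨_, ⟨R, hR, rfl⟩, hg⟩
    obtain ⟨j, hj⟩ := (hcC hR).2.2 b
    have h2 := congrArg (map (sSup c).subtype) (h1 j)
    rw [Subgroup.map_sup, subgroupOf_map_subtype, subgroupOf_map_subtype, ← MonoidHom.range_eq_map,
      range_subtype] at h2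
    have h3 : X j ⊔ sSup c ≤ X j ⊔ R :=
      sup_le le_sup_left (h2.ge.trans (sup_le_sup inf_le_left inf_le_left))
    exact absurd ((index_le_of_le h3 (sup_index_ne_zero (hf j) _)).trans (h j)) (not_le.2 hj))
    ⊥ ⟨inferInstance, bot_le, by simpa using hb⟩
  obtain ⟨hRn, hRF, hRb⟩ := hR.1
  have hs := QuotientGroup.mk'_surjective R
  have := Normal.map ‹F.Normal› _ hs
  obtain ⟨K, hK, hKF, hK0, hG⟩ := exists_genNil hT (F.map (QuotientGroup.mk' R)) (fun h => by
      rw [Subgroup.map_eq_bot_iff, QuotientGroup.ker_mk'] at h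
      obtain ⟨j, hj⟩ := hRb m
      exact absurd ((index_le_of_le (sup_le_sup_left h _) (sup_index_ne_zero (hf j) _)).trans
        (hm j)) (not_le.2 hj))
    (hL.map _ ((QuotientGroup.mk' R).subgroupMap_surjective F)) (by
      rintro _ ⟨x, hx, rfl⟩
      rw [← map_pow, hE x hx, map_one])
  obtain ⟨b, h1⟩ : ∃ b, ∀ j, (X j ⊔ K.comap (QuotientGroup.mk' R)).index ≤ b := by
    by_contra! h
    have h2 := hR.2 (y := K.comap (QuotientGroup.mk' R)) ⟨inferInstance, (comap_mono hKF).trans (by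
      rw [comap_map_eq, QuotientGroup.ker_mk', sup_of_le_left hRF]), h⟩
      (QuotientGroup.le_comap_mk' _ _)
    refine hK0 (le_bot_iff.1 ?_)
    rw [← map_comap_eq_self_of_surjective hs K, le_bot_iff, Subgroup.map_eq_bot_iff,
      QuotientGroup.ker_mk']
    exact h2
  obtain ⟨j, hj⟩ := hRb (b ^ (1 * b * b) * b)
  refine absurd ?_ (not_le.2 hj)
  rw [← index_map_mk]
  refine index_le_of_genNil _ K (by rw [index_map_mk]; exact sup_index_ne_zero (hf j) _) ?_
    (fun k hk => cover_map R (hc j) k (hKF hk)) hG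
  rw [← map_comap_eq_self_of_surjective hs K, ← Subgroup.map_sup, index_map_mk]
  exact (index_le_of_le le_sup_left (sup_index_ne_zero (hf j) _)).trans (h1 j)

end Pool.Agent.P.MP_169bcc_al
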